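import Mathlib

set_option autoImplicit false

namespace Pool.Agent.H458Z.Cole

open Complex Set Filter Topology

/-- Formal terms built from a variable, Gaussian rational constants, sums, products and square
roots. -/
inductive Tm : Type
  | z : Tm
  | c : ℚ → ℚ → Tm
  | add : Tm → Tm → Tm
  | mul : Tm → Tm → Tm
  | rt : Tm → Tm

namespace Tm

/-- A code for terms. -/
def enc : Tm → ℕ
  | z => Nat.pair 0 0
  | c q r => Nat.pair 1 (Nat.pair (Encodable.encode q) (Encodable.encode r))
  | add s t => Nat.pair 2 (Nat.pair (enc s) (enc t))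
  | mul s t => Nat.pair 3 (Nat.pair (enc s) (enc t))
  | rt s => Nat.pair 4 (enc s)

lemma enc_inj : ∀ s t : Tm, enc s = enc t → s = t := by
  intro s
  induction s with
  | z => intro t h; cases t <;> simp_all [enc, Nat.pair_eq_pair]
  | c q r => intro t h; cases t <;> simp_all [enc, Nat.pair_eq_pair]
  | add a b iha ihb =>
    intro t h
    cases t <;> simp [enc, Nat.pair_eq_pair] at h
    rw [iha _ h.1, ihb _ h.2]
  | mul a b iha ihb =>
    intro t h
    cases t <;> simp [enc, Nat.pair_eq_pair] at h
    rw [iha _ h.1, ihb _ h.2]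
  | rt a iha =>
    intro t h
    cases t <;> simp [enc, Nat.pair_eq_pair] at h
    rw [iha _ h]

instance instCountable : Countable Tm := ⟨⟨enc, enc_inj⟩⟩

noncomputable instance instDecEq : DecidableEq Tm := Classical.decEq _

/-- Size of a term. -/
def size : Tm → ℕ
  | z => 1
  | c _ _ => 1
  | add s t => size s + size t + 1
  | mul s t => size s + size t + 1
  | rt s => size s + 1

/-- The terms whose root occurs in a term. -/
noncomputable def subs : Tm → Finset Tm
  | z => ∅
  | c _ _ => ∅
  | add s t => subs s ∪ subs t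
  | mul s t => subs s ∪ subs t
  | rt s => insert s (subs s)

/-- An a priori bound. -/
noncomputable def bd : Tm → ℝ
  | z => 1
  | c q r => ‖(q : ℂ) + (r : ℂ) * I‖
  | add s t => bd s + bd t
  | mul s t => bd s * bd t
  | rt s => 1 + bd s

lemma size_lt {s : Tm} : ∀ {t : Tm}, s ∈ subs t → size s < size t := by
  intro t
  induction t with
  | z => simp [subs]
  | c q r => simp [subs]
  | add a b iha ihb =>
    simp only [subs, Finset.mem_union, size]
    rintro (h | h)
    · have := iha h; omega
    · have := ihb h; omega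
  | mul a b iha ihb =>
    simp only [subs, Finset.mem_union, size]
    rintro (h | h)
    · have := iha h; omega
    · have := ihb h; omega
  | rt a iha =>
    simp only [subs, Finset.mem_insert, size]
    rintro (h | h)
    · rw [h]; omega
    · have := iha h; omega

lemma subs_subset {s : Tm} : ∀ {t : Tm}, s ∈ subs t → subs s ⊆ subs t := by
  intro t
  induction t with
  | z => simp [subs]
  | c q r => simp [subs]
  | add a b iha ihb =>
    simp only [subs, Finset.mem_union]
    rintro (h | h)
    · exact (iha h).trans Finset.subset_union_left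
    · exact (ihb h).trans Finset.subset_union_right
  | mul a b iha ihb =>
    simp only [subs, Finset.mem_union]
    rintro (h | h)
    · exact (iha h).trans Finset.subset_union_left
    · exact (ihb h).trans Finset.subset_union_right
  | rt a iha =>
    simp only [subs, Finset.mem_insert]
    rintro (h | h)
    · rw [h]; exact Finset.subset_insert _ _
    · exact (iha h).trans (Finset.subset_insert _ _)

end Tm

open Tm

/-- Consistent valuations of the terms. -/
def Val (x : Tm → ℂ) : Prop :=
  ‖x z‖ ≤ 1 ∧ (∀ q r : ℚ, x (c q r) = (q : ℂ) + (r : ℂ) * I) ∧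
    (∀ s t, x (add s t) = x s + x t) ∧ (∀ s t, x (mul s t) = x s * x t) ∧
    ∀ s, x (rt s) ^ 2 = x s

/-- The space of consistent valuations. -/
def X : Type := {x : Tm → ℂ // Val x}

instance instTop : TopologicalSpace X :=
  inferInstanceAs (TopologicalSpace {x : Tm → ℂ // Val x})

instance instMetr : TopologicalSpace.MetrizableSpace X :=
  (Topology.IsEmbedding.subtypeVal (p := Val)).metrizableSpace

lemma Val.bound {x : Tm → ℂ} (hx : Val x) : ∀ t, ‖x t‖ ≤ bd t := by
  intro t
  induction t with
  | z => exact hx.1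
  | c q r => rw [hx.2.1]; exact le_rfl
  | add a b iha ihb =>
    rw [hx.2.2.1]
    exact (norm_add_le _ _).trans (add_le_add iha ihb)
  | mul a b iha ihb =>
    rw [hx.2.2.2.1, norm_mul]
    exact mul_le_mul iha ihb (norm_nonneg _) ((norm_nonneg _).trans iha)
  | rt a iha =>
    have h1 : ‖x (rt a)‖ ^ 2 = ‖x a‖ := by rw [← norm_pow, hx.2.2.2.2]
    simp only [bd]
    nlinarith [sq_nonneg (‖x (rt a)‖ - 1), norm_nonneg (x a)]

lemma isClosed_val : IsClosed {x : Tm → ℂ | Val x} := by
  simp only [Val, ofPred_and, ofPred_forall]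
  refine IsClosed.inter ?_ (IsClosed.inter ?_ (IsClosed.inter ?_ (IsClosed.inter ?_ ?_)))
  · exact isClosed_le (by fun_prop) continuous_const
  · exact isClosed_iInter fun q => isClosed_iInter fun r => isClosed_eq (by fun_prop) (by fun_prop)
  · exact isClosed_iInter fun q => isClosed_iInter fun r => isClosed_eq (by fun_prop) (by fun_prop)
  · exact isClosed_iInter fun q => isClosed_iInter fun r => isClosed_eq (by fun_prop) (by fun_prop)
  · exact isClosed_iInter fun q => isClosed_eq (by fun_prop) (by fun_prop)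

instance instCompact : CompactSpace X := by
  have h : IsCompact {x : Tm → ℂ | Val x} := by
    refine (isCompact_univ_pi fun t => isCompact_closedBall (0 : ℂ) (bd t)).of_isClosed_subset
      isClosed_val ?_
    intro x hx t _
    simpa using Val.bound hx t
  exact isCompact_iff_compactSpace.1 h

/-- Some square root. -/
noncomputable def sroot (w : ℂ) : ℂ := (IsAlgClosed.exists_pow_nat_eq w two_pos).choose

lemma sroot_sq (w : ℂ) : sroot w ^ 2 = w := (IsAlgClosed.exists_pow_nat_eq w two_pos).choose_spec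

/-- A valuation over a given point. -/
noncomputable def base (a : ℂ) : Tm → ℂ
  | z => a
  | c q r => (q : ℂ) + (r : ℂ) * I
  | add s t => base a s + base a t
  | mul s t => base a s * base a t
  | rt s => sroot (base a s)

lemma base_val {a : ℂ} (ha : ‖a‖ ≤ 1) : Val (base a) :=
  ⟨ha, fun _ _ => rfl, fun _ _ => rfl, fun _ _ => rfl, fun _ => sroot_sq _⟩

open Classical in
/-- Change the sign of one root. -/
noncomputable def flip (s : Tm) (x : Tm → ℂ) : Tm → ℂ
  | z => x z
  | c q r => (q : ℂ) + (r : ℂ) * I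
  | add a b => flip s x a + flip s x b
  | mul a b => flip s x a * flip s x b
  | rt u => if u = s then - x (rt s) else if flip s x u = x u then x (rt u)
      else sroot (flip s x u)

lemma flip_eq {s : Tm} {x : Tm → ℂ} (hx : Val x) : ∀ u, s ∉ subs u → flip s x u = x u := by
  intro u
  induction u with
  | z => intro _; rfl
  | c q r => intro _; rw [hx.2.1]; rfl
  | add a b iha ihb =>
    intro h
    simp only [subs, Finset.mem_union, not_or] at h
    rw [hx.2.2.1, flip, iha h.1, ihb h.2]
  | mul a b iha ihb =>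
    intro h
    simp only [subs, Finset.mem_union, not_or] at h
    rw [hx.2.2.2.1, flip, iha h.1, ihb h.2]
  | rt a iha =>
    intro h
    simp only [subs, Finset.mem_insert, not_or] at h
    rw [flip, if_neg (fun e => h.1 e.symm), if_pos (iha h.2)]

lemma not_mem_subs_self (s : Tm) : s ∉ subs s := fun h => lt_irrefl _ (size_lt h)

lemma flip_rt (s : Tm) (x : Tm → ℂ) : flip s x (rt s) = - x (rt s) := by
  rw [flip, if_pos rfl]

lemma flip_val {s : Tm} {x : Tm → ℂ} (hx : Val x) : Val (flip s x) := by
  refine ⟨hx.1, fun _ _ => rfl, fun _ _ => rfl, fun _ _ => rfl, fun u => ?_⟩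
  rw [flip]
  split_ifs with h1 h2
  · rw [h1, neg_sq, hx.2.2.2.2, flip_eq hx s (not_mem_subs_self s)]
  · rw [hx.2.2.2.2, h2]
  · exact sroot_sq _

lemma decomp {s : Tm} {F : Finset Tm} (hsF : subs s ⊆ F) (hF : ∀ u ∈ F, size u ≤ size s) :
    ∀ t, subs t ⊆ insert s F → ∃ P Q : Tm, subs P ⊆ F ∧ subs Q ⊆ F ∧
      ∀ y, Val y → y t = y P + y Q * y (rt s) := by
  have h0 : ∀ y, Val y → y (c 0 0) = 0 := fun y hy => by rw [hy.2.1]; simp
  have h1 : ∀ y, Val y → y (c 1 0) = 1 := fun y hy => by rw [hy.2.1]; simp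
  intro t
  induction t with
  | z => exact fun _ => ⟨z, c 0 0, by simp [subs], by simp [subs], fun y hy => by simp [h0 y hy]⟩
  | c q r =>
    exact fun _ => ⟨c q r, c 0 0, by simp [subs], by simp [subs], fun y hy => by simp [h0 y hy]⟩
  | add a b iha ihb =>
    intro h
    simp only [subs, Finset.union_subset_iff] at h
    obtain ⟨P1, Q1, p1, q1, e1⟩ := iha h.1
    obtain ⟨P2, Q2, p2, q2, e2⟩ := ihb h.2
    refine ⟨add P1 P2, add Q1 Q2, Finset.union_subset p1 p2, Finset.union_subset q1 q2,
      fun y hy => ?_⟩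
    rw [hy.2.2.1, hy.2.2.1, hy.2.2.1, e1 y hy, e2 y hy]
    ring
  | mul a b iha ihb =>
    intro h
    simp only [subs, Finset.union_subset_iff] at h
    obtain ⟨P1, Q1, p1, q1, e1⟩ := iha h.1
    obtain ⟨P2, Q2, p2, q2, e2⟩ := ihb h.2
    refine ⟨add (mul P1 P2) (mul (mul Q1 Q2) s), add (mul P1 Q2) (mul Q1 P2),
      Finset.union_subset (Finset.union_subset p1 p2)
        (Finset.union_subset (Finset.union_subset q1 q2) hsF),
      Finset.union_subset (Finset.union_subset p1 q2) (Finset.union_subset q1 p2),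
      fun y hy => ?_⟩
    simp only [hy.2.2.1, hy.2.2.2.1]
    rw [e1 y hy, e2 y hy, ← hy.2.2.2.2 s]
    ring
  | rt u _ =>
    intro h
    by_cases hu : u = s
    · refine ⟨c 0 0, c 1 0, by simp [subs], by simp [subs], fun y hy => ?_⟩
      rw [h0 y hy, h1 y hy, hu]
      ring
    · have huF : u ∈ F := by
        have := h (show u ∈ subs (rt u) by simp [subs])
        rcases Finset.mem_insert.1 this with e | e
        · exact absurd e hu
        · exact e
      refine ⟨rt u, c 0 0, ?_, by simp [subs], fun y hy => by simp [h0 y hy]⟩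
      intro v hv
      rcases Finset.mem_insert.1 (h hv) with e | e
      · exfalso
        rw [e] at hv
        simp only [subs, Finset.mem_insert] at hv
        rcases hv with e' | e'
        · exact hu e'.symm
        · have := size_lt e'
          have := hF u huF
          omega
      · exact e

lemma poly_of_empty : ∀ t : Tm, subs t = ∅ →
    ∃ p : ℂ → ℂ, Differentiable ℂ p ∧ ∀ y, Val y → y t = p (y z) := by
  intro t
  induction t with
  | z => exact fun _ => ⟨id, differentiable_id, fun _ _ => rfl⟩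
  | c q r => exact fun _ => ⟨fun _ => (q : ℂ) + (r : ℂ) * I, by fun_prop, fun y hy => hy.2.1 q r⟩
  | add a b iha ihb =>
    intro h
    simp only [subs, Finset.union_eq_empty] at h
    obtain ⟨p, hp, ep⟩ := iha h.1
    obtain ⟨q, hq, eq⟩ := ihb h.2
    exact ⟨fun w => p w + q w, hp.add hq, fun y hy => by rw [hy.2.2.1, ep y hy, eq y hy]⟩
  | mul a b iha ihb =>
    intro h
    simp only [subs, Finset.union_eq_empty] at h
    obtain ⟨p, hp, ep⟩ := iha h.1
    obtain ⟨q, hq, eq⟩ := ihb h.2
    exact ⟨fun w => p w * q w, hp.mul hq, fun y hy => by rw [hy.2.2.2.1, ep y hy, eq y hy]⟩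
  | rt a _ => intro h; simp [subs] at h

lemma avg : ∀ (n : ℕ) (t : Tm), (subs t).card = n → ∃ p : ℂ → ℂ, Differentiable ℂ p ∧
    ∀ (a w : ℂ) (ρ : ℝ), ‖a‖ ≤ 1 → (∀ y, Val y → y z = a → ‖y t - w‖ ≤ ρ) → ‖p a - w‖ ≤ ρ := by
  intro n
  induction n using Nat.strong_induction_on with
  | _ n ih =>
    intro t ht
    rcases (subs t).eq_empty_or_nonempty with he | hne
    · obtain ⟨p, hp, ep⟩ := poly_of_empty t he
      refine ⟨p, hp, fun a w ρ ha h => ?_⟩
      have := h (base a) (base_val ha) rfl
      rwa [ep _ (base_val ha)] at this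
    · obtain ⟨s, hs, hmax⟩ := (subs t).exists_max_image size hne
      have hsF : subs s ⊆ (subs t).erase s := by
        intro v hv
        refine Finset.mem_erase.2 ⟨fun e => not_mem_subs_self s (e ▸ hv), subs_subset hs hv⟩
      obtain ⟨P, Q, hP, hQ, e⟩ := decomp hsF (fun u hu => hmax u (Finset.mem_of_mem_erase hu)) t
        (by rw [Finset.insert_erase hs])
      have hlt : (subs P).card < n := by
        rw [← ht]
        exact (Finset.card_le_card hP).trans_lt (Finset.card_erase_lt_of_mem hs)
      obtain ⟨p, hp, hpp⟩ := ih _ hlt P rfl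
      refine ⟨p, hp, fun a w ρ ha h => hpp a w ρ ha fun y hy hya => ?_⟩
      have h1 := h y hy hya
      have h2 := h (flip s y) (flip_val hy) hya
      have nP : s ∉ subs P := fun hh => by simpa using hP hh
      have nQ : s ∉ subs Q := fun hh => by simpa using hQ hh
      rw [e _ (flip_val hy), flip_eq hy P nP, flip_eq hy Q nQ, flip_rt] at h2
      rw [e _ hy] at h1
      have : y P - w = (1 / 2 : ℂ) * ((y P + y Q * y (rt s) - w) + (y P + y Q * -y (rt s) - w)) := by
        ring
      rw [this, norm_mul]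
      have h3 := norm_add_le (y P + y Q * y (rt s) - w) (y P + y Q * -y (rt s) - w)
      have h4 : ‖(1 / 2 : ℂ)‖ = 1 / 2 := by simp
      rw [h4]
      linarith

/-- Coordinate functions. -/
def coord (t : Tm) : C(X, ℂ) :=
  ⟨fun x => x.1 t, (continuous_apply t).comp continuous_subtype_val⟩

lemma coord_add (s t : Tm) : coord (add s t) = coord s + coord t := by
  ext x; exact x.2.2.2.1 s t

lemma coord_mul (s t : Tm) : coord (mul s t) = coord s * coord t := by
  ext x; exact x.2.2.2.2.1 s t

lemma coord_rt (s : Tm) : coord (rt s) ^ 2 = coord s := by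
  ext x; exact x.2.2.2.2.2 s

lemma coord_c (q r : ℚ) : coord (c q r) = algebraMap ℂ C(X, ℂ) ((q : ℂ) + (r : ℂ) * I) := by
  ext x
  have := x.2.2.1 q r
  simpa [coord] using this

/-- The ring of coordinate functions. -/
noncomputable def ringD : Subring C(X, ℂ) where
  carrier := range coord
  mul_mem' := by rintro _ _ ⟨s, rfl⟩ ⟨t, rfl⟩; exact ⟨mul s t, coord_mul s t⟩
  one_mem' := ⟨c 1 0, by rw [coord_c]; simp⟩
  add_mem' := by rintro _ _ ⟨s, rfl⟩ ⟨t, rfl⟩; exact ⟨add s t, coord_add s t⟩
  zero_mem' := ⟨c 0 0, by rw [coord_c]; simp⟩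
  neg_mem' := by
    rintro _ ⟨s, rfl⟩
    exact ⟨mul (c (-1) 0) s, by rw [coord_mul, coord_c]; simp⟩

lemma const_mem (w : ℂ) : algebraMap ℂ C(X, ℂ) w ∈ closure (range coord) := by
  have hd : DenseRange fun p : ℚ × ℚ => ((p.1 : ℂ) + (p.2 : ℂ) * I) := by
    have h1 : DenseRange (Prod.map ((↑) : ℚ → ℝ) ((↑) : ℚ → ℝ)) :=
      Rat.denseRange_cast.prodMap Rat.denseRange_cast
    have h2 : DenseRange fun p : ℝ × ℝ => ((p.1 : ℂ) + (p.2 : ℂ) * I) := by
      apply Function.Surjective.denseRange
      intro w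
      exact ⟨(w.re, w.im), re_add_im w⟩
    have h3 := h2.comp h1 (by fun_prop)
    convert h3 using 1
    funext p
    simp
  have hc : Continuous (algebraMap ℂ C(X, ℂ)) := continuous_algebraMap _ _
  refine map_mem_closure hc (hd w) ?_
  rintro _ ⟨p, rfl⟩
  exact ⟨c p.1 p.2, coord_c _ _⟩

/-- The uniform algebra. -/
noncomputable def algA : Subalgebra ℂ C(X, ℂ) :=
  { ringD.topologicalClosure with algebraMap_mem' := const_mem }

lemma coe_algA : (algA : Set C(X, ℂ)) = closure (range coord) := rfl

lemma isClosed_algA : IsClosed (algA : Set C(X, ℂ)) := isClosed_closure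

lemma coord_mem (t : Tm) : coord t ∈ algA := subset_closure (mem_range_self t)

lemma algA_sep (x y : X) (h : x ≠ y) : ∃ f ∈ algA, f x ≠ f y := by
  by_contra hn
  push Not at hn
  apply h
  apply Subtype.ext
  funext t
  exact hn _ (coord_mem t)

lemma algA_ne_top : algA ≠ ⊤ := by
  intro h
  let f : C(X, ℂ) := ⟨fun x => ((1 - ‖x.1 z‖ : ℝ) : ℂ),
    Complex.continuous_ofReal.comp (continuous_const.sub (coord z).continuous.norm)⟩
  have hf : f ∈ closure (range coord) := by
    rw [← coe_algA, h]; trivial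
  obtain ⟨_, ⟨t, rfl⟩, ht⟩ := Metric.mem_closure_iff.1 hf (1 / 4) (by norm_num)
  have hpt : ∀ y (hy : Val y), ‖y t - ((1 - ‖y z‖ : ℝ) : ℂ)‖ ≤ 1 / 4 := by
    intro y hy
    have := (ContinuousMap.dist_apply_le_dist (f := f) (g := coord t) (⟨y, hy⟩ : X)).trans ht.le
    rw [dist_comm, dist_eq_norm] at this
    exact this
  obtain ⟨p, hp, hpp⟩ := avg _ t rfl
  have h0 : ‖p 0 - 1‖ ≤ 1 / 4 := by
    apply hpp 0 1 (1 / 4) (by simp)
    intro y hy hy0
    simpa [hy0] using hpt y hy
  have h1 : ∀ a ∈ frontier (Metric.ball (0 : ℂ) 1), ‖p a‖ ≤ 1 / 4 := by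
    intro a ha
    rw [frontier_ball _ one_ne_zero] at ha
    have ha' : ‖a‖ = 1 := by simpa using ha
    have := hpp a 0 (1 / 4) ha'.le (fun y hy hya => by simpa [hya, ha'] using hpt y hy)
    simpa using this
  have h2 : ‖p 0‖ ≤ 1 / 4 :=
    Complex.norm_le_of_forall_mem_frontier_norm_le Metric.isBounded_ball hp.diffContOnCl h1
      (subset_closure (Metric.mem_ball_self one_pos))
  have h3 := norm_sub_le (p 0) (p 0 - 1)
  simp only [sub_sub_cancel, norm_one] at h3
  linarith

lemma algA_natural (φ : algA →ₐ[ℂ] ℂ) : ∃ x : X, ∀ f : algA, φ f = (f : C(X, ℂ)) x := by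
  have : CompleteSpace algA := isClosed_algA.completeSpace_coe
  let y : Tm → ℂ := fun t => φ ⟨coord t, coord_mem t⟩
  have hy : Val y := by
    refine ⟨?_, fun q r => ?_, fun s t => ?_, fun s t => ?_, fun s => ?_⟩
    · refine (AlgHom.norm_apply_le_self_mul_norm_one φ _).trans ?_
      have a1 : ‖(⟨coord z, coord_mem z⟩ : algA)‖ ≤ 1 :=
        (ContinuousMap.norm_le _ zero_le_one).2 fun x => x.2.1
      have a2 : ‖(1 : algA)‖ ≤ 1 :=
        (ContinuousMap.norm_le (1 : C(X, ℂ)) zero_le_one).2 fun x => by simp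
      exact mul_le_one₀ a1 (norm_nonneg _) a2
    · have : (⟨coord (c q r), coord_mem _⟩ : algA) = algebraMap ℂ algA ((q : ℂ) + (r : ℂ) * I) :=
        Subtype.ext (coord_c q r)
      simp only [y]
      rw [this, AlgHom.commutes]
      rfl
    · simp only [y]
      rw [← map_add]
      congr 1
      exact Subtype.ext (coord_add s t)
    · simp only [y]
      rw [← map_mul]
      congr 1
      exact Subtype.ext (coord_mul s t)
    · simp only [y]
      rw [← map_pow]
      congr 1
      exact Subtype.ext (coord_rt s)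
  refine ⟨⟨y, hy⟩, fun f => ?_⟩
  have hφ : Continuous φ := map_continuous φ
  have hcl : IsClosed {g : algA | φ g = (g : C(X, ℂ)) ⟨y, hy⟩} :=
    isClosed_eq hφ ((continuous_eval_const _).comp continuous_subtype_val)
  have hcl2 : IsClosed (Subtype.val '' {g : algA | φ g = (g : C(X, ℂ)) ⟨y, hy⟩}) :=
    isClosed_algA.isClosedEmbedding_subtypeVal.isClosedMap _ hcl
  have hsub : closure (range coord) ⊆
      Subtype.val '' {g : algA | φ g = (g : C(X, ℂ)) ⟨y, hy⟩} := by
    apply closure_minimal _ hcl2
    rintro _ ⟨t, rfl⟩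
    exact ⟨⟨coord t, coord_mem t⟩, rfl, rfl⟩
  obtain ⟨g, hg, hgf⟩ := hsub f.2
  have : g = f := Subtype.ext hgf
  rw [← this]
  exact hg

end Pool.Agent.H458Z.Cole
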