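import Pool.Agent.H458Z.Cole.NoCircle
import Pool.Agent.H458Z.Cole.Tower

set_option autoImplicit false

namespace Pool.Agent.H458Z.Cole

open Complex Set Filter Topology

/-- Clamping to the unit interval. -/
noncomputable def cl (u : ℝ) : ℝ := max 0 (min 1 u)

lemma cl_cont : Continuous cl := continuous_const.max (continuous_const.min continuous_id)

lemma cl_of_le {u : ℝ} (h : u ≤ 0) : cl u = 0 :=
  max_eq_left ((min_le_right _ _).trans h)

lemma cl_of_ge {u : ℝ} (h : 1 ≤ u) : cl u = 1 := by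
  rw [cl, min_eq_left h, max_eq_right zero_le_one]

lemma cl_nonneg (u : ℝ) : 0 ≤ cl u := le_max_left _ _

lemma cl_le_one (u : ℝ) : cl u ≤ 1 := max_le zero_le_one (min_le_left _ _)

/-- A path around the boundary of the unit square. -/
noncomputable def sq (t : ℝ) : ℝ × ℝ := (cl t - cl (t - 2), cl (t - 1) - cl (t - 3))

lemma sq_cont : Continuous sq :=
  (cl_cont.sub (cl_cont.comp (continuous_id.sub continuous_const))).prodMk
    ((cl_cont.comp (continuous_id.sub continuous_const)).sub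
      (cl_cont.comp (continuous_id.sub continuous_const)))

lemma sq1 {t : ℝ} (h : t ≤ 1) : (sq t).2 = 0 := by
  simp only [sq]
  rw [cl_of_le (by linarith), cl_of_le (by linarith), sub_zero]

lemma sq2 {t : ℝ} (h : 1 ≤ t) (h' : t ≤ 2) : (sq t).1 = 1 := by
  simp only [sq]
  rw [cl_of_ge h, cl_of_le (by linarith), sub_zero]

lemma sq3 {t : ℝ} (h : 2 ≤ t) (h' : t ≤ 3) : (sq t).2 = 1 := by
  simp only [sq]
  rw [cl_of_ge (by linarith), cl_of_le (by linarith), sub_zero]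

lemma sq4 {t : ℝ} (h : 3 ≤ t) : (sq t).1 = 0 := by
  simp only [sq]
  rw [cl_of_ge (by linarith), cl_of_ge (by linarith), sub_self]

lemma cl_diff (u : ℝ) : cl u - cl (u - 2) ∈ Icc (0 : ℝ) 1 := by
  rcases le_total u 2 with h | h
  · rw [cl_of_le (u := u - 2) (by linarith), sub_zero]
    exact ⟨cl_nonneg _, cl_le_one _⟩
  · rw [cl_of_ge (u := u) (by linarith)]
    constructor
    · linarith [cl_le_one (u - 2)]
    · linarith [cl_nonneg (u - 2)]

lemma not_mem_gap {v : ℝ} (hv : v = 0 ∨ v = 1) (n a : ℕ) :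
    v ∉ Set.Ioo ((3 * (a : ℝ) + 1) / 3 ^ (n + 1)) ((3 * (a : ℝ) + 2) / 3 ^ (n + 1)) := by
  rintro ⟨h1, h2⟩
  have hp : (0 : ℝ) < 3 ^ (n + 1) := by positivity
  rcases hv with rfl | rfl
  · have : (0 : ℝ) < (3 * (a : ℝ) + 1) / 3 ^ (n + 1) := by positivity
    linarith
  · rw [div_lt_one hp] at h1
    rw [one_lt_div hp] at h2
    have h1' : 3 * a + 1 < 3 ^ (n + 1) := by exact_mod_cast h1
    have h2' : 3 ^ (n + 1) < 3 * a + 2 := by exact_mod_cast h2
    omega

/-- The carpet. -/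
def carpet : Set (ℝ × ℝ) := {p : ℝ × ℝ |
  p.1 ∈ Set.Icc (0 : ℝ) 1 ∧ p.2 ∈ Set.Icc (0 : ℝ) 1 ∧
  ∀ n a b : ℕ, ¬ (p.1 ∈ Set.Ioo ((3 * (a : ℝ) + 1) / 3 ^ (n + 1)) ((3 * (a : ℝ) + 2) / 3 ^ (n + 1)) ∧
    p.2 ∈ Set.Ioo ((3 * (b : ℝ) + 1) / 3 ^ (n + 1)) ((3 * (b : ℝ) + 2) / 3 ^ (n + 1)))}

lemma sq_mem (t : ℝ) : sq t ∈ carpet := by
  refine ⟨cl_diff t, ?_, fun n a b h => ?_⟩
  · have := cl_diff (t - 1)
    rw [show t - 1 - 2 = t - 3 by ring] at this
    exact this
  · rcases le_total t 1 with h1 | h1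
    · exact not_mem_gap (Or.inl (sq1 h1)) n b h.2
    rcases le_total t 2 with h2 | h2
    · exact not_mem_gap (Or.inr (sq2 h1 h2)) n a h.1
    rcases le_total t 3 with h3 | h3
    · exact not_mem_gap (Or.inr (sq3 h2 h3)) n b h.2
    · exact not_mem_gap (Or.inl (sq4 h3)) n a h.1

theorem no_carpet (K : Set X) (e : K ≃ₜ carpet) : False := by
  let γ : ℝ → X := fun t => (e.symm ⟨sq t, sq_mem t⟩ : K)
  have hγ : Continuous γ :=
    continuous_subtype_val.comp (e.symm.continuous.comp (sq_cont.subtype_mk _))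
  have hinj : ∀ s t, γ s = γ t → sq s = sq t := by
    intro s t h
    have := e.symm.injective (Subtype.ext h)
    exact congrArg Subtype.val this
  let D : Set (ℝ → ℂ) := range fun u : Tm => fun t => (γ t).1 u
  have hD : RootSys D := by
    refine ⟨?_, ?_, ?_, ?_, ?_, ?_⟩
    · rintro _ ⟨u, rfl⟩
      exact (coord u).continuous.comp hγ
    · rintro _ ⟨u, rfl⟩
      exact ⟨Tm.bd u, fun y => (γ y).2.bound u⟩
    · rintro _ ⟨u, rfl⟩ _ ⟨v, rfl⟩
      exact ⟨Tm.add u v, funext fun y => (γ y).2.2.2.1 u v⟩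
    · rintro _ ⟨u, rfl⟩ _ ⟨v, rfl⟩
      exact ⟨Tm.mul u v, funext fun y => (γ y).2.2.2.2.1 u v⟩
    · intro q r
      exact ⟨Tm.c q r, funext fun y => (γ y).2.2.1 q r⟩
    · rintro _ ⟨u, rfl⟩
      exact ⟨_, ⟨Tm.rt u, rfl⟩, fun y => (γ y).2.2.2.2.2 u⟩
  have hsep : ∀ s t, sq s ≠ sq t → ∃ f ∈ D, f s ≠ f t := by
    intro s t hst
    by_contra hn
    push Not at hn
    apply hst
    apply hinj
    apply Subtype.ext
    funext u
    exact hn _ ⟨u, rfl⟩
  apply no_square hD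
  · intro s hs t ht
    apply hsep
    intro h
    have h1 := sq1 hs.2
    rw [h, sq3 ht.1 ht.2] at h1
    exact one_ne_zero h1
  · intro s hs t ht
    apply hsep
    intro h
    have h1 := sq2 hs.1 hs.2
    rw [h, sq4 ht.1] at h1
    exact zero_ne_one h1
  · rintro _ ⟨u, rfl⟩
    have : sq 4 = sq 0 := by
      simp only [sq]
      rw [cl_of_ge (u := 4) (by norm_num), cl_of_ge (u := 4 - 2) (by norm_num),
        cl_of_ge (u := 4 - 1) (by norm_num), cl_of_ge (u := 4 - 3) (by norm_num),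
        cl_of_le (u := 0) (by norm_num), cl_of_le (u := 0 - 2) (by norm_num),
        cl_of_le (u := 0 - 1) (by norm_num), cl_of_le (u := 0 - 3) (by norm_num)]
      simp
    have h2 : γ 4 = γ 0 := by
      simp only [γ]
      congr 2
      exact Subtype.ext this
    show (γ 4).1 u = (γ 0).1 u
    rw [h2]

end Pool.Agent.H458Z.Cole
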