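import Mathlib

set_option autoImplicit false

namespace Pool.Agent.H458Z.Cole

open Complex Set Filter Topology

/-- A ring of bounded continuous functions with Gaussian rational constants in which every
element has a square root. -/
structure RootSys {Y : Type} [TopologicalSpace Y] (D : Set (Y → ℂ)) : Prop where
  cont : ∀ f ∈ D, Continuous f
  bdd : ∀ f ∈ D, ∃ M : ℝ, ∀ y, ‖f y‖ ≤ M
  add : ∀ f ∈ D, ∀ g ∈ D, (fun y => f y + g y) ∈ D
  mul : ∀ f ∈ D, ∀ g ∈ D, (fun y => f y * g y) ∈ D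
  const : ∀ q r : ℚ, (fun _ => (q : ℂ) + (r : ℂ) * I) ∈ D
  sqrt : ∀ f ∈ D, ∃ g ∈ D, ∀ y, g y ^ 2 = f y

variable {Y : Type} [TopologicalSpace Y] {D : Set (Y → ℂ)}

lemma RootSys.smul (h : RootSys D) (q r : ℚ) {f : Y → ℂ} (hf : f ∈ D) :
    (fun y => ((q : ℂ) + (r : ℂ) * I) * f y) ∈ D :=
  h.mul _ (h.const q r) _ hf

lemma RootSys.neg (h : RootSys D) {f : Y → ℂ} (hf : f ∈ D) : (fun y => - f y) ∈ D := by
  have := h.smul (-1) 0 hf
  simpa using this

lemma RootSys.mulI (h : RootSys D) {f : Y → ℂ} (hf : f ∈ D) : (fun y => I * f y) ∈ D := by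
  have := h.smul 0 1 hf
  simpa using this

lemma RootSys.addc (h : RootSys D) (q r : ℚ) {f : Y → ℂ} (hf : f ∈ D) :
    (fun y => f y + ((q : ℂ) + (r : ℂ) * I)) ∈ D :=
  h.add _ hf _ (h.const q r)

lemma sign_pos {S : Set Y} (hS : IsPreconnected S) {φ : Y → ℝ} (hφ : Continuous φ)
    (h0 : ∀ y ∈ S, φ y ≠ 0) {a : Y} (ha : a ∈ S) (hpos : 0 < φ a) : ∀ y ∈ S, 0 < φ y := by
  intro y hy
  by_contra hn
  push Not at hn
  have := hS.intermediate_value hy ha hφ.continuousOn
  obtain ⟨z, hz, hz0⟩ := this (show (0 : ℝ) ∈ Icc (φ y) (φ a) from ⟨hn, hpos.le⟩)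
  exact h0 z hz hz0

lemma sign_neg {S : Set Y} (hS : IsPreconnected S) {φ : Y → ℝ} (hφ : Continuous φ)
    (h0 : ∀ y ∈ S, φ y ≠ 0) {a : Y} (ha : a ∈ S) (hneg : φ a < 0) : ∀ y ∈ S, φ y < 0 := by
  intro y hy
  have := sign_pos hS (φ := fun y => - φ y) hφ.neg (fun y hy => neg_ne_zero.2 (h0 y hy)) ha
    (by linarith) y hy
  linarith

lemma re_sq (z : ℂ) : (z ^ 2).re = z.re ^ 2 - z.im ^ 2 := by
  simp [pow_two]

lemma im_sq (z : ℂ) : (z ^ 2).im = 2 * z.re * z.im := by
  simp [pow_two]; ring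

lemma root_pos (h : RootSys D) {S : Set Y} (hS : IsPreconnected S) {u : Y → ℂ} (hu : u ∈ D)
    (hpos : ∀ y ∈ S, 0 < (u y).re) :
    ∃ g ∈ D, (∀ y, g y ^ 2 = u y) ∧ ∀ y ∈ S, 0 < (g y).re := by
  obtain ⟨g, hg, hg2⟩ := h.sqrt u hu
  have hc : Continuous fun y => (g y).re := Complex.continuous_re.comp (h.cont g hg)
  have hne : ∀ y ∈ S, (g y).re ≠ 0 := by
    intro y hy h0
    have h1 := hpos y hy
    rw [← hg2 y, re_sq, h0] at h1
    nlinarith [sq_nonneg (g y).im]
  rcases S.eq_empty_or_nonempty with rfl | ⟨a, ha⟩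
  · exact ⟨g, hg, hg2, by simp⟩
  rcases lt_or_gt_of_ne (hne a ha) with hlt | hgt
  · refine ⟨fun y => - g y, h.neg hg, fun y => by rw [neg_sq, hg2], fun y hy => ?_⟩
    have := sign_neg hS hc hne ha hlt y hy
    simp only [neg_re]
    linarith
  · exact ⟨g, hg, hg2, sign_pos hS hc hne ha hgt⟩

lemma iter_root (h : RootSys D) {S : Set Y} (hS : IsPreconnected S) {u : Y → ℂ} (hu : u ∈ D)
    (hpos : ∀ y ∈ S, 0 < (u y).re) (n : ℕ) :
    ∃ g ∈ D, (∀ y, ‖g y‖ ^ (2 ^ (n + 1)) = ‖u y‖) ∧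
      ∀ y ∈ S, 0 < (g y).re ∧ |(g y).im| ≤ (g y).re / 2 ^ n := by
  induction n with
  | zero =>
    obtain ⟨g, hg, hg2, hgp⟩ := root_pos h hS hu hpos
    refine ⟨g, hg, fun y => by rw [← hg2 y]; simp, fun y hy => ⟨hgp y hy, ?_⟩⟩
    have h1 := hpos y hy
    rw [← hg2 y, re_sq] at h1
    have h2 := hgp y hy
    simp only [pow_zero, div_one]
    apply abs_le_of_sq_le_sq' _ h2.le |> abs_le.2
    linarith
  | succ n ih =>
    obtain ⟨g, hg, hgn, hgp⟩ := ih
    obtain ⟨k, hk, hk2, hkp⟩ := root_pos h hS hg (fun y hy => (hgp y hy).1)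
    refine ⟨k, hk, fun y => ?_, fun y hy => ⟨hkp y hy, ?_⟩⟩
    · rw [← hgn y, ← hk2 y, norm_pow, ← pow_mul]
      congr 1
      ring
    · have h1 := (hgp y hy).2
      rw [← hk2 y, re_sq, im_sq] at h1
      have h2 := hkp y hy
      have h3 : |2 * (k y).re * (k y).im| = 2 * (k y).re * |(k y).im| := by
        rw [abs_mul, abs_of_pos (by positivity : 0 < 2 * (k y).re)]
      rw [h3] at h1
      have h4 : (0 : ℝ) < 2 ^ n := by positivity
      rw [le_div_iff₀ h4] at h1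
      rw [le_div_iff₀ (by positivity)]
      have h5 : (k y).re * (|(k y).im| * 2 ^ (n + 1)) ≤ (k y).re * (k y).re := by
        have : (k y).re * (|(k y).im| * 2 ^ (n + 1)) = 2 * (k y).re * |(k y).im| * 2 ^ n := by
          ring
        rw [this]
        nlinarith [sq_nonneg (k y).im]
      exact le_of_mul_le_mul_left h5 h2

/-- Crude separation. -/
def Pre (D : Set (Y → ℂ)) (S N V : Set Y) : Prop :=
  ∃ m : ℝ, 0 < m ∧ ∃ M : ℝ, ∀ δ : ℝ, 0 < δ → ∃ u ∈ D, (∀ y ∈ S, 0 < (u y).re) ∧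
    (∀ y ∈ N, m ≤ ‖u y‖) ∧ (∀ y, ‖u y‖ ≤ M) ∧ ∀ y ∈ V, ‖u y‖ ≤ δ

/-- Sharp separation. -/
def Good (D : Set (Y → ℂ)) (S N V : Set Y) : Prop :=
  ∀ ε : ℝ, 0 < ε → ∃ w ∈ D, (∀ y ∈ N, ‖w y - 1‖ ≤ ε) ∧ (∀ y, ‖w y‖ ≤ 1 + ε) ∧
    (∀ y ∈ V, ‖w y‖ ≤ ε) ∧ ∀ y ∈ S, |(w y).im| ≤ ε

omit [TopologicalSpace Y] in
lemma Good.mono {S N V S' N' V' : Set Y} (h : Good D S N V) (hS : S' ⊆ S) (hN : N' ⊆ N)
    (hV : V' ⊆ V) : Good D S' N' V' := by
  intro ε hε
  obtain ⟨w, hw, h1, h2, h3, h4⟩ := h ε hε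
  exact ⟨w, hw, fun y hy => h1 y (hN hy), h2, fun y hy => h3 y (hV hy), fun y hy => h4 y (hS hy)⟩

lemma exists_n {m M η : ℝ} (hm : 0 < m) (hη : 0 < η) (hη1 : η < 1) :
    ∃ n : ℕ, 1 / (2 : ℝ) ^ n ≤ η ∧ (1 - η) ^ (2 ^ (n + 1)) < m ∧ M < (1 + η) ^ (2 ^ (n + 1)) := by
  have t1 : Tendsto (fun n : ℕ => 2 ^ (n + 1)) atTop atTop :=
    (tendsto_pow_atTop_atTop_of_one_lt (by norm_num : (1 : ℕ) < 2)).comp (tendsto_add_atTop_nat 1)
  have e1 : ∀ᶠ n : ℕ in atTop, 1 / (2 : ℝ) ^ n ≤ η := by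
    have : Tendsto (fun n : ℕ => (1 / 2 : ℝ) ^ n) atTop (𝓝 0) :=
      tendsto_pow_atTop_nhds_zero_of_lt_one (by norm_num) (by norm_num)
    filter_upwards [this.eventually (ge_mem_nhds hη)] with n hn
    simpa [one_div] using hn
  have e2 : ∀ᶠ n : ℕ in atTop, (1 - η) ^ (2 ^ (n + 1)) < m := by
    have : Tendsto (fun n : ℕ => (1 - η) ^ n) atTop (𝓝 0) :=
      tendsto_pow_atTop_nhds_zero_of_lt_one (by linarith) (by linarith)
    exact (this.comp t1).eventually (gt_mem_nhds hm)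
  have e3 : ∀ᶠ n : ℕ in atTop, M < (1 + η) ^ (2 ^ (n + 1)) := by
    have : Tendsto (fun n : ℕ => (1 + η) ^ n) atTop atTop :=
      tendsto_pow_atTop_atTop_of_one_lt (by linarith)
    exact (this.comp t1).eventually (eventually_gt_atTop M)
  exact (e1.and (e2.and e3)).exists

lemma pre_good (h : RootSys D) {S N V : Set Y} (hS : IsPreconnected S) (hNS : N ⊆ S)
    (hp : Pre D S N V) : Good D S N V := by
  obtain ⟨m, hm, M, hp⟩ := hp
  intro ε hε
  set η : ℝ := min (ε / 5) (1 / 2) with hηdef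
  have hη : 0 < η := lt_min (by linarith) (by norm_num)
  have hη1 : η ≤ 1 / 2 := min_le_right _ _
  have hηε : η ≤ ε / 5 := min_le_left _ _
  obtain ⟨n, hn1, hn2, hn3⟩ := exists_n (M := M) hm hη (by linarith)
  obtain ⟨u, hu, u1, u2, u3, u4⟩ := hp (η ^ (2 ^ (n + 1))) (by positivity)
  obtain ⟨g, hg, g1, g2⟩ := iter_root h hS hu u1 n
  have hk : (2 ^ (n + 1) : ℕ) ≠ 0 := by positivity
  have up : ∀ y, ‖g y‖ ≤ 1 + η := by
    intro y
    apply le_of_lt
    apply lt_of_pow_lt_pow_left₀ (2 ^ (n + 1)) (by linarith)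
    rw [g1 y]
    exact (u3 y).trans_lt hn3
  have him : ∀ y ∈ S, |(g y).im| ≤ 2 * η := by
    intro y hy
    have a1 := (g2 y hy).2
    have a2 : (g y).re ≤ 1 + η := (re_le_norm _).trans (up y)
    have a3 : (g y).re / 2 ^ n = (g y).re * (1 / 2 ^ n) := by ring
    have a4 : (g y).re * (1 / 2 ^ n) ≤ 2 * η := by
      apply mul_le_mul (by linarith) hn1 (by positivity) (by norm_num)
    linarith
  refine ⟨g, hg, fun y hy => ?_, fun y => (up y).trans (by linarith), fun y hy => ?_,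
    fun y hy => (him y hy).trans (by linarith)⟩
  · have lo : 1 - η ≤ ‖g y‖ := by
      apply le_of_lt
      apply lt_of_pow_lt_pow_left₀ (2 ^ (n + 1)) (norm_nonneg _)
      rw [g1 y]
      exact hn2.trans_le (u2 y hy)
    have a1 := him y (hNS hy)
    have a2 : (g y).re ≤ 1 + η := (re_le_norm _).trans (up y)
    have a3 : ‖g y‖ ≤ |(g y).re| + |(g y).im| := norm_le_abs_re_add_abs_im _
    rw [abs_of_pos (g2 y (hNS hy)).1] at a3
    have a4 : ‖g y - 1‖ ≤ |(g y - 1).re| + |(g y - 1).im| := norm_le_abs_re_add_abs_im _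
    have a5 : |(g y - 1).re| ≤ 3 * η := by
      rw [abs_le]
      simp only [sub_re, one_re]
      constructor <;> linarith
    have a6 : (g y - 1).im = (g y).im := by simp
    rw [a6] at a4
    linarith
  · have : ‖g y‖ ≤ η := by
      apply le_of_pow_le_pow_left₀ hk hη.le
      rw [g1 y]
      exact u4 y hy
    linarith

lemma Good.symm [PreconnectedSpace Y] (h : RootSys D) {S N V : Set Y} (hg : Good D S N V) :
    Good D univ V N := by
  apply pre_good h isPreconnected_univ (subset_univ _)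
  refine ⟨1, one_pos, 4, fun δ hδ => ?_⟩
  obtain ⟨q, hq0, hq1⟩ := exists_rat_btwn (lt_min (half_pos hδ) one_pos)
  have hq2 : (q : ℝ) < δ / 2 := hq1.trans_le (min_le_left _ _)
  have hq3 : (q : ℝ) < 1 := hq1.trans_le (min_le_right _ _)
  obtain ⟨w, hw, w1, w2, w3, -⟩ := hg (q / 2) (by linarith)
  have hmem := h.addc (1 + q) 0 (h.neg hw)
  refine ⟨_, hmem, fun y _ => ?_, fun y hy => ?_, fun y => ?_, fun y hy => ?_⟩
  · have := (re_le_norm _).trans (w2 y)
    simp
    linarith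
  · have a1 := (re_le_norm _).trans (w3 y hy)
    refine le_trans ?_ (re_le_norm _)
    simp
    linarith
  · refine (norm_add_le _ _).trans ?_
    have a1 : ‖(((1 + q : ℚ) : ℂ) + ((0 : ℚ) : ℂ) * I)‖ ≤ 2 := by
      have : (((1 + q : ℚ) : ℂ) + ((0 : ℚ) : ℂ) * I) = ((1 + (q : ℝ) : ℝ) : ℂ) := by
        push_cast; ring
      rw [this, Complex.norm_real, Real.norm_eq_abs, abs_le]
      constructor <;> linarith
    have a2 := w2 y
    rw [norm_neg]
    linarith
  · have : -w y + (((1 + q : ℚ) : ℂ) + ((0 : ℚ) : ℂ) * I) = -(w y - 1) + ((q : ℝ) : ℂ) := by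
      push_cast; ring
    rw [this]
    refine (norm_add_le _ _).trans ?_
    rw [norm_neg, Complex.norm_real, Real.norm_eq_abs, abs_of_pos hq0]
    have := w1 y hy
    linarith

lemma Good.union (h : RootSys D) {N V₁ V₂ : Set Y} (h1 : Good D ∅ N V₁) (h2 : Good D ∅ N V₂) :
    Good D ∅ N (V₁ ∪ V₂) := by
  intro ε hε
  set η : ℝ := min (ε / 3) 1 with hηdef
  have hη : 0 < η := lt_min (by linarith) (by norm_num)
  have hη1 : η ≤ 1 := min_le_right _ _
  have hηε : η ≤ ε / 3 := min_le_left _ _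
  obtain ⟨w, hw, w1, w2, w3, -⟩ := h1 η hη
  obtain ⟨v, hv, v1, v2, v3, -⟩ := h2 η hη
  refine ⟨_, h.mul w hw v hv, fun y hy => ?_, fun y => ?_, fun y hy => ?_, by simp⟩
  · have : w y * v y - 1 = w y * (v y - 1) + (w y - 1) := by ring
    rw [this]
    refine (norm_add_le _ _).trans ?_
    rw [norm_mul]
    have a := mul_le_mul (w2 y) (v1 y hy) (norm_nonneg _) (by linarith)
    have b := w1 y hy
    nlinarith
  · rw [norm_mul]
    have a := mul_le_mul (w2 y) (v2 y) (norm_nonneg _) (by linarith)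
    nlinarith
  · rw [norm_mul]
    rcases hy with hy | hy
    · have a := mul_le_mul (w3 y hy) (v2 y) (norm_nonneg _) (by linarith)
      nlinarith
    · have a := mul_le_mul (w2 y) (v3 y hy) (norm_nonneg _) (by linarith)
      nlinarith

lemma good_empty (h : RootSys D) (N : Set Y) : Good D ∅ N ∅ := by
  intro ε hε
  refine ⟨_, h.const 1 0, fun y _ => ?_, fun y => ?_, by simp, by simp⟩
  · simp [hε.le]
  · simp [hε.le]

lemma discrete_ivt (σ : ℕ → ℝ) (h0 : 0 < σ 0) (hne : ∀ j, σ j ≠ 0) :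
    ∀ n, σ n < 0 → ∃ j, j < n ∧ 0 < σ j ∧ σ (j + 1) < 0 := by
  intro n
  induction n with
  | zero => intro h; linarith
  | succ n ih =>
    intro h
    rcases lt_or_gt_of_ne (hne n) with hlt | hgt
    · obtain ⟨j, hj, hj'⟩ := ih hlt
      exact ⟨j, by omega, hj'⟩
    · exact ⟨n, by omega, hgt, h⟩

lemma two_roots [PreconnectedSpace Y] (h : RootSys D) {f : Y → ℂ} (hf : f ∈ D) {s t : Y}
    (hs : (f s).re < 0) (ht : 0 < (f t).re) {R : ℚ} (hR : ∀ y, ‖f y‖ < R) {δ : ℝ} (hδ : 0 < δ) :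
    ∃ g ∈ D, ∃ k ∈ D, ∃ τ τ' : ℝ, |τ| ≤ R ∧ |τ'| ≤ R ∧ |τ - τ'| ≤ δ ∧
      (∀ y, g y ^ 2 = f y - τ * I) ∧ (∀ y, k y ^ 2 = f y - τ' * I) ∧
      0 < (g t).re * (k t).re ∧ 0 < (g s).im ∧ (k s).im < 0 := by
  have hR0 : (0 : ℝ) < R := (norm_nonneg _).trans_lt (hR s)
  have hex : ∀ τ : ℚ, ∃ g ∈ D, ∀ y, g y ^ 2 = f y - ((τ : ℝ) : ℂ) * I := by
    intro τ
    obtain ⟨g, hg, hg2⟩ := h.sqrt _ (h.addc 0 (-τ) hf)
    refine ⟨g, hg, fun y => ?_⟩
    rw [hg2 y]
    push_cast
    ring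
  choose G hG hG2 using hex
  have hre : ∀ τ y, (G τ y).re ^ 2 - (G τ y).im ^ 2 = (f y).re := by
    intro τ y
    rw [← re_sq, hG2]
    simp
  have him : ∀ τ y, 2 * (G τ y).re * (G τ y).im = (f y).im - τ := by
    intro τ y
    rw [← im_sq, hG2]
    simp
  have hta : ∀ τ, (G τ t).re ≠ 0 := by
    intro τ h0
    have := hre τ t
    rw [h0] at this
    nlinarith [sq_nonneg (G τ t).im]
  have hsa : ∀ τ, (G τ s).im ≠ 0 := by
    intro τ h0
    have := hre τ s
    rw [h0] at this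
    nlinarith [sq_nonneg (G τ s).re]
  have himb : ∀ y, |(f y).im| < R := fun y => (abs_im_le_norm _).trans_lt (hR y)
  have hsame : ∀ τ : ℚ, (∀ y, (f y).im - τ ≠ 0) → 0 < (G τ s).re * (G τ t).re := by
    intro τ hτ
    have hne : ∀ y, (G τ y).re ≠ 0 := by
      intro y h0
      apply hτ y
      rw [← him τ y, h0]
      ring
    have hc : Continuous fun y => (G τ y).re * (G τ t).re :=
      (Complex.continuous_re.comp (h.cont _ (hG τ))).mul continuous_const
    exact sign_pos isPreconnected_univ hc (fun y _ => mul_ne_zero (hne y) (hne t)) (mem_univ t)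
      (mul_self_pos.2 (hne t)) s (mem_univ s)
  obtain ⟨n, hn⟩ := exists_nat_gt (2 * (R : ℝ) / δ)
  have hn0 : (0 : ℝ) < n := lt_of_le_of_lt (by positivity) hn
  let T : ℕ → ℚ := fun j => -R + j * (2 * R / n)
  have hT : ∀ j, (T j : ℝ) = -R + j * (2 * R / n) := by
    intro j
    simp only [T]
    push_cast
    ring
  let σ : ℕ → ℝ := fun j => (G (T j) t).re * (G (T j) s).im
  have hσ0 : 0 < σ 0 := by
    have e : (T 0 : ℝ) = -R := by rw [hT]; simp
    have a1 := hsame (T 0) (fun y => by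
      have := (abs_lt.1 (himb y)).1
      rw [e]; linarith)
    have a2 := him (T 0) s
    have a3 := (abs_lt.1 (himb s)).1
    rw [e] at a2
    have a4 : 0 < (G (T 0) s).re * (G (T 0) s).im := by linarith
    have a5 : 0 < ((G (T 0) s).re * (G (T 0) t).re) * ((G (T 0) s).re * (G (T 0) s).im) :=
      mul_pos a1 a4
    by_contra hn
    push Not at hn
    simp only [σ] at hn
    nlinarith [sq_nonneg (G (T 0) s).re]
  have hσn : σ n < 0 := by
    have e : (T n : ℝ) = R := by rw [hT]; field_simp; ring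
    have a1 := hsame (T n) (fun y => by
      have := (abs_lt.1 (himb y)).2
      rw [e]; linarith)
    have a2 := him (T n) s
    have a3 := (abs_lt.1 (himb s)).2
    rw [e] at a2
    have a4 : (G (T n) s).re * (G (T n) s).im < 0 := by linarith
    have a5 : ((G (T n) s).re * (G (T n) t).re) * ((G (T n) s).re * (G (T n) s).im) < 0 :=
      mul_neg_of_pos_of_neg a1 a4
    by_contra hn
    push Not at hn
    simp only [σ] at hn
    nlinarith [sq_nonneg (G (T n) s).re]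
  obtain ⟨j, hj, hj1, hj2⟩ := discrete_ivt σ hσ0 (fun j => mul_ne_zero (hta _) (hsa _)) n hσn
  have hstep : (0 : ℝ) < 2 * R / n := by positivity
  have hbd : ∀ i : ℕ, i ≤ n → |(T i : ℝ)| ≤ R := by
    intro i hi
    have hi' : (i : ℝ) ≤ n := by exact_mod_cast hi
    have a1 : (i : ℝ) * (2 * R / n) ≤ n * (2 * R / n) := mul_le_mul_of_nonneg_right hi' hstep.le
    have a2 : (n : ℝ) * (2 * R / n) = 2 * R := by field_simp
    have a3 : (0 : ℝ) ≤ i * (2 * R / n) := by positivity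
    rw [hT, abs_le]
    constructor <;> linarith
  have hdiff : |(T j : ℝ) - T (j + 1)| ≤ δ := by
    rw [hT, hT]
    have : -(R : ℝ) + j * (2 * R / n) - (-R + ((j + 1 : ℕ) : ℝ) * (2 * R / n)) = -(2 * R / n) := by
      push_cast; ring
    rw [this, abs_neg, abs_of_pos hstep, div_le_iff₀ hn0]
    rw [div_lt_iff₀ hδ] at hn
    linarith
  simp only [σ] at hj1 hj2
  have key : ∀ a b : ℂ, a ^ 2 = 1 → b ^ 2 = 1 → (fun y => a * G (T j) y) ∈ D →
      (fun y => b * G (T (j + 1)) y) ∈ D →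
      0 < (a * G (T j) t).re * (b * G (T (j + 1)) t).re → 0 < (a * G (T j) s).im →
      (b * G (T (j + 1)) s).im < 0 →
      ∃ g ∈ D, ∃ k ∈ D, ∃ τ τ' : ℝ, |τ| ≤ R ∧ |τ'| ≤ R ∧ |τ - τ'| ≤ δ ∧
      (∀ y, g y ^ 2 = f y - τ * I) ∧ (∀ y, k y ^ 2 = f y - τ' * I) ∧
      0 < (g t).re * (k t).re ∧ 0 < (g s).im ∧ (k s).im < 0 := by
    intro a b ha hb m1 m2 p1 p2 p3
    exact ⟨_, m1, _, m2, T j, T (j + 1), hbd j hj.le, hbd (j + 1) hj, hdiff,
      fun y => by rw [mul_pow, ha, one_mul, hG2], fun y => by rw [mul_pow, hb, one_mul, hG2],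
      p1, p2, p3⟩
  have mp : ∀ τ, (fun y => (1 : ℂ) * G τ y) ∈ D := fun τ => by simpa using hG τ
  have mn : ∀ τ, (fun y => (-1 : ℂ) * G τ y) ∈ D := fun τ => by simpa using h.neg (hG τ)
  rcases lt_or_gt_of_ne (hsa (T j)) with c1 | c1 <;>
    rcases lt_or_gt_of_ne (hsa (T (j + 1))) with c2 | c2
  · apply key (-1) 1 (by ring) (by ring) (mn _) (mp _)
    · have d1 : (G (T j) t).re < 0 := by nlinarith
      have d2 : 0 < (G (T (j + 1)) t).re := by nlinarith
      simp
      nlinarith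
    · simpa using c1
    · simpa using c2
  · apply key (-1) (-1) (by ring) (by ring) (mn _) (mn _)
    · have d1 : (G (T j) t).re < 0 := by nlinarith
      have d2 : (G (T (j + 1)) t).re < 0 := by nlinarith
      simp
      nlinarith
    · simpa using c1
    · simpa using c2
  · apply key 1 1 (by ring) (by ring) (mp _) (mp _)
    · have d1 : 0 < (G (T j) t).re := by nlinarith
      have d2 : 0 < (G (T (j + 1)) t).re := by nlinarith
      simp only [one_mul]
      nlinarith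
    · simpa using c1
    · simpa using c2
  · apply key 1 (-1) (by ring) (by ring) (mp _) (mn _)
    · have d1 : 0 < (G (T j) t).re := by nlinarith
      have d2 : (G (T (j + 1)) t).re < 0 := by nlinarith
      simp
      nlinarith
    · simpa using c1
    · simpa using c2

lemma local_sep_aux [PreconnectedSpace Y] [LocallyConnectedSpace Y] (h : RootSys D) {f : Y → ℂ}
    (hf : f ∈ D) {s t : Y} (hs : (f s).re < 0) (ht : 0 < (f t).re) :
    ∃ N ∈ 𝓝 s, ∃ V ∈ 𝓝 t, Good D ∅ N V := by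
  set c : ℝ := min (-(f s).re) (f t).re / 2 with hc
  have hc0 : 0 < c := half_pos (lt_min (by linarith) ht)
  have hc1 : (f s).re < -c := by
    have := min_le_left (-(f s).re) (f t).re
    linarith
  have hc2 : c < (f t).re := by
    have := min_le_right (-(f s).re) (f t).re
    linarith
  have hfc : Continuous fun y => (f y).re := Complex.continuous_re.comp (h.cont f hf)
  obtain ⟨N, hN, hNc, hNs⟩ := locallyConnectedSpace_iff_connected_subsets.1 ‹_› s _
    (hfc.continuousAt.eventually (gt_mem_nhds hc1))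
  obtain ⟨V, hV, hVc, hVs⟩ := locallyConnectedSpace_iff_connected_subsets.1 ‹_› t _
    (hfc.continuousAt.eventually (lt_mem_nhds hc2))
  refine ⟨N, hN, V, hV, (pre_good h hNc subset_rfl ?_).mono (empty_subset _) subset_rfl subset_rfl⟩
  obtain ⟨M, hM⟩ := h.bdd f hf
  obtain ⟨R, hR⟩ := exists_rat_gt M
  have hR' : ∀ y, ‖f y‖ < R := fun y => (hM y).trans_lt hR
  have hm : 0 < Real.sqrt c := Real.sqrt_pos.2 hc0
  have hm2 : Real.sqrt c ^ 2 = c := Real.sq_sqrt hc0.le
  refine ⟨Real.sqrt c, hm, 2 + 4 * R, fun δ hδ => ?_⟩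
  obtain ⟨g, hg, k, hk, τ, τ', t1, t2, t3, g2, k2, p1, p2, p3⟩ :=
    two_roots h hf hs ht hR' (mul_pos hδ hm)
  have gre : ∀ y, (g y).re ^ 2 - (g y).im ^ 2 = (f y).re := by
    intro y; rw [← re_sq, g2]; simp
  have kre : ∀ y, (k y).re ^ 2 - (k y).im ^ 2 = (f y).re := by
    intro y; rw [← re_sq, k2]; simp
  have gN : ∀ y ∈ N, 0 < (g y).im := by
    apply sign_pos hNc (Complex.continuous_im.comp (h.cont g hg)) _ (mem_of_mem_nhds hN) p2
    intro y hy h0
    have a1 : (f y).re < -c := hNs hy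
    have a2 := gre y
    simp only [Function.comp] at h0
    rw [h0] at a2
    nlinarith [sq_nonneg (g y).re]
  have kN : ∀ y ∈ N, (k y).im < 0 := by
    apply sign_neg hNc (Complex.continuous_im.comp (h.cont k hk)) _ (mem_of_mem_nhds hN) p3
    intro y hy h0
    have a1 : (f y).re < -c := hNs hy
    have a2 := kre y
    simp only [Function.comp] at h0
    rw [h0] at a2
    nlinarith [sq_nonneg (k y).re]
  have gkV : ∀ y ∈ V, 0 < (g y).re * (k y).re := by
    apply sign_pos hVc (φ := fun y => (g y).re * (k y).re)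
      ((Complex.continuous_re.comp (h.cont g hg)).mul
        (Complex.continuous_re.comp (h.cont k hk))) _ (mem_of_mem_nhds hV) p1
    intro y hy
    have a1 : c < (f y).re := hVs hy
    apply mul_ne_zero
    · intro h0
      have a2 := gre y
      rw [h0] at a2
      nlinarith [sq_nonneg (g y).im]
    · intro h0
      have a2 := kre y
      rw [h0] at a2
      nlinarith [sq_nonneg (k y).im]
  have nb : ∀ (z w : ℂ) (ρ : ℝ), ‖w‖ < R → |ρ| ≤ R → z ^ 2 = w - ρ * I → ‖z‖ ≤ 1 + 2 * R := by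
    intro z w ρ hw hρ hz
    have a1 : ‖z‖ ^ 2 ≤ ‖w‖ + |ρ| := by
      rw [← norm_pow, hz]
      refine (norm_sub_le _ _).trans ?_
      simp
    nlinarith [sq_nonneg (‖z‖ - 1), norm_nonneg z]
  have hu : (fun y => - (I * (g y + - k y))) ∈ D := h.neg (h.mulI (h.add g hg _ (h.neg hk)))
  have hure : ∀ y, (- (I * (g y + - k y))).re = (g y).im - (k y).im := by
    intro y; simp; ring
  have hun : ∀ y, ‖- (I * (g y + - k y))‖ = ‖g y - k y‖ := by
    intro y; rw [norm_neg, norm_mul, norm_I, one_mul, sub_eq_add_neg]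
  refine ⟨_, hu, fun y hy => ?_, fun y hy => ?_, fun y => ?_, fun y hy => ?_⟩
  · rw [hure]
    linarith [gN y hy, kN y hy]
  · refine le_trans ?_ (re_le_norm _)
    rw [hure]
    have a1 : (f y).re < -c := hNs hy
    have a2 := gre y
    have a3 : Real.sqrt c ≤ (g y).im := by
      apply abs_le_of_sq_le_sq' _ (gN y hy).le |>.2
      nlinarith [sq_nonneg (g y).re]
    linarith [kN y hy]
  · rw [hun]
    refine (norm_sub_le _ _).trans ?_
    linarith [nb _ _ _ (hR' y) t1 (g2 y), nb _ _ _ (hR' y) t2 (k2 y)]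
  · rw [hun]
    have a1 : c < (f y).re := hVs hy
    have a2 := gre y
    have a3 := gkV y hy
    have a4 : Real.sqrt c ≤ ‖g y + k y‖ := by
      refine le_trans ?_ (abs_re_le_norm _)
      apply abs_le_of_sq_le_sq' _ (abs_nonneg _) |>.2
      rw [sq_abs, hm2, add_re]
      nlinarith [sq_nonneg (g y).im, sq_nonneg (k y).re]
    have a5 : ‖g y - k y‖ * ‖g y + k y‖ = |τ - τ'| := by
      rw [← norm_mul]
      have : (g y - k y) * (g y + k y) = -(((τ - τ' : ℝ) : ℂ) * I) := by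
        have e : (g y - k y) * (g y + k y) = g y ^ 2 - k y ^ 2 := by ring
        rw [e, g2, k2]
        push_cast
        ring
      rw [this, norm_neg, norm_mul, norm_I, mul_one, Complex.norm_real, Real.norm_eq_abs]
    have a6 : ‖g y - k y‖ * Real.sqrt c ≤ δ * Real.sqrt c :=
      (mul_le_mul_of_nonneg_left a4 (norm_nonneg _)).trans (a5.le.trans t3)
    exact le_of_mul_le_mul_right a6 hm

lemma local_sep [PreconnectedSpace Y] [LocallyConnectedSpace Y] (h : RootSys D) {f : Y → ℂ}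
    (hf : f ∈ D) {s t : Y} (hst : f s ≠ f t) :
    ∃ N ∈ 𝓝 s, ∃ V ∈ 𝓝 t, Good D ∅ N V := by
  have key : ∀ g ∈ D, (g s).re < (g t).re → ∃ N ∈ 𝓝 s, ∃ V ∈ 𝓝 t, Good D ∅ N V := by
    intro g hg hlt
    obtain ⟨q, hq1, hq2⟩ := exists_rat_btwn hlt
    apply local_sep_aux h (h.addc (-q) 0 hg)
    · simp; linarith
    · simp; linarith
  have key2 : ∀ g ∈ D, (g s).re ≠ (g t).re → ∃ N ∈ 𝓝 s, ∃ V ∈ 𝓝 t, Good D ∅ N V := by
    intro g hg hne
    rcases lt_or_gt_of_ne hne with hlt | hgt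
    · exact key g hg hlt
    · apply key _ (h.neg hg)
      simpa using hgt
  by_cases hre : (f s).re = (f t).re
  · apply key2 _ (h.mulI hf)
    intro him
    apply hst
    apply Complex.ext hre
    simpa using him
  · exact key2 f hf hre

lemma compact_sep [PreconnectedSpace Y] [LocallyConnectedSpace Y] (h : RootSys D)
    {K L : Set Y} (hK : IsCompact K) (hL : IsCompact L)
    (hsep : ∀ s ∈ K, ∀ t ∈ L, ∃ f ∈ D, f s ≠ f t) : Good D univ K L := by
  have step1 : ∀ s ∈ K, ∃ N ∈ 𝓝 s, Good D ∅ N L := by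
    intro s hs
    apply hL.induction_on (p := fun V => ∃ N ∈ 𝓝 s, Good D ∅ N V)
    · exact ⟨univ, univ_mem, good_empty h _⟩
    · rintro V V' hVV ⟨N, hN, hg⟩
      exact ⟨N, hN, hg.mono subset_rfl subset_rfl hVV⟩
    · rintro V V' ⟨N, hN, hg⟩ ⟨N', hN', hg'⟩
      exact ⟨N ∩ N', inter_mem hN hN', (hg.mono subset_rfl inter_subset_left subset_rfl).union h
        (hg'.mono subset_rfl inter_subset_right subset_rfl)⟩
    · intro t ht
      obtain ⟨f, hf, hst⟩ := hsep s hs t ht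
      obtain ⟨N, hN, V, hV, hg⟩ := local_sep h hf hst
      exact ⟨V, mem_nhdsWithin_of_mem_nhds hV, N, hN, hg⟩
  have step2 : Good D ∅ L K := by
    apply hK.induction_on (p := fun N => Good D ∅ L N)
    · exact good_empty h _
    · intro V V' hVV hg
      exact hg.mono subset_rfl subset_rfl hVV
    · intro V V' hg hg'
      exact hg.union h hg'
    · intro s hs
      obtain ⟨N, hN, hg⟩ := step1 s hs
      exact ⟨N, mem_nhdsWithin_of_mem_nhds hN,
        (hg.symm h).mono (empty_subset _) subset_rfl subset_rfl⟩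
  exact step2.symm h

/-- No root system on the real line closes up at `0` and `4` and separates opposite sides. -/
theorem no_square {D : Set (ℝ → ℂ)} (h : RootSys D)
    (h13 : ∀ s ∈ Icc (0 : ℝ) 1, ∀ t ∈ Icc (2 : ℝ) 3, ∃ f ∈ D, f s ≠ f t)
    (h24 : ∀ s ∈ Icc (1 : ℝ) 2, ∀ t ∈ Icc (3 : ℝ) 4, ∃ f ∈ D, f s ≠ f t)
    (hcl : ∀ f ∈ D, f 4 = f 0) : False := by
  obtain ⟨w, hw, w1, -, w3, w4⟩ := compact_sep h isCompact_Icc isCompact_Icc h13 (1 / 8)
    (by norm_num)
  obtain ⟨v, hv, v1, -, v3, v4⟩ := compact_sep h isCompact_Icc isCompact_Icc h24 (1 / 8)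
    (by norm_num)
  have hF := h.addc (-1 / 2) (-1 / 2) (h.add w hw _ (h.mulI hv))
  obtain ⟨g, hg, hg2⟩ := h.sqrt _ hF
  have gre : ∀ y, (g y).re ^ 2 - (g y).im ^ 2 = (w y).re - (v y).im - 1 / 2 := by
    intro y; rw [← re_sq, hg2]; simp; ring
  have gim : ∀ y, 2 * (g y).re * (g y).im = (w y).im + (v y).re - 1 / 2 := by
    intro y; rw [← im_sq, hg2]; simp; ring
  have near1 : ∀ z : ℂ, ‖z - 1‖ ≤ 1 / 8 → 7 / 8 ≤ z.re := by
    intro z hz
    have := (abs_le.1 ((abs_re_le_norm _).trans hz)).1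
    simp only [sub_re, one_re] at this
    linarith
  have near0 : ∀ z : ℂ, ‖z‖ ≤ 1 / 8 → z.re ≤ 1 / 8 := fun z hz => (re_le_norm _).trans hz
  have s1 : ∀ y ∈ Icc (0 : ℝ) 1, 0 < (g y).re ^ 2 - (g y).im ^ 2 := by
    intro y hy
    rw [gre]
    linarith [near1 _ (w1 y hy), (abs_le.1 (v4 y (mem_univ _))).2]
  have s2 : ∀ y ∈ Icc (1 : ℝ) 2, 0 < 2 * (g y).re * (g y).im := by
    intro y hy
    rw [gim]
    linarith [near1 _ (v1 y hy), (abs_le.1 (w4 y (mem_univ _))).1]
  have s3 : ∀ y ∈ Icc (2 : ℝ) 3, (g y).re ^ 2 - (g y).im ^ 2 < 0 := by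
    intro y hy
    rw [gre]
    linarith [near0 _ (w3 y hy), (abs_le.1 (v4 y (mem_univ _))).1]
  have s4 : ∀ y ∈ Icc (3 : ℝ) 4, 2 * (g y).re * (g y).im < 0 := by
    intro y hy
    rw [gim]
    linarith [near0 _ (v3 y hy), (abs_le.1 (w4 y (mem_univ _))).2]
  have main : ∀ k : ℝ → ℂ, Continuous k → (∀ y, (k y).re ^ 2 = (g y).re ^ 2) →
      (∀ y, (k y).im ^ 2 = (g y).im ^ 2) →
      (∀ y, (k y).re * (k y).im = (g y).re * (g y).im) → k 4 = k 0 → 0 < (k 0).re → False := by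
    intro k hk e1 e2 e3 e4 e5
    have cre : Continuous fun y => (k y).re := Complex.continuous_re.comp hk
    have cim : Continuous fun y => (k y).im := Complex.continuous_im.comp hk
    have b1 : 0 < (k 1).re := by
      apply sign_pos (isPreconnected_Icc (a := (0 : ℝ)) (b := 1)) cre _ (by simp) e5 1 (by simp)
      intro y hy h0
      have := s1 y hy
      rw [← e1, h0] at this
      nlinarith [sq_nonneg (g y).im]
    have b2 : 0 < (k 2).re := by
      apply sign_pos (isPreconnected_Icc (a := (1 : ℝ)) (b := 2)) cre _ (by simp) b1 2 (by simp)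
      intro y hy h0
      have := s2 y hy
      rw [mul_assoc, ← e3, h0] at this
      simp at this
    have b2' : 0 < (k 2).im := by
      have := s2 2 (by simp)
      rw [mul_assoc, ← e3] at this
      nlinarith
    have b3 : 0 < (k 3).im := by
      apply sign_pos (isPreconnected_Icc (a := (2 : ℝ)) (b := 3)) cim _
        (by constructor <;> norm_num) b2' 3 (by constructor <;> norm_num)
      intro y hy h0
      have := s3 y hy
      rw [← e2, h0] at this
      nlinarith [sq_nonneg (g y).re]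
    have b4 : 0 < (k 4).im := by
      apply sign_pos (isPreconnected_Icc (a := (3 : ℝ)) (b := 4)) cim _
        (by constructor <;> norm_num) b3 4 (by constructor <;> norm_num)
      intro y hy h0
      have := s4 y hy
      rw [mul_assoc, ← e3, h0] at this
      simp at this
    have b5 := s4 4 (by constructor <;> norm_num)
    rw [mul_assoc, ← e3] at b5
    rw [← e4] at e5
    nlinarith [mul_pos e5 b4]
  have hne : (g 0).re ≠ 0 := by
    intro h0
    have := s1 0 (by simp)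
    rw [h0] at this
    nlinarith [sq_nonneg (g 0).im]
  rcases lt_or_gt_of_ne hne with hlt | hgt
  · apply main (fun y => - g y) (h.cont g hg).neg
    · intro y; simp
    · intro y; simp
    · intro y; simp
    · simp [hcl g hg]
    · simpa using hlt
  · exact main g (h.cont g hg) (fun _ => rfl) (fun _ => rfl) (fun _ => rfl) (hcl g hg) hgt

end Pool.Agent.H458Z.Cole
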